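import Pool.Agent.helper1.VD.SpecA2

/-!
# Project VD (MP_07c750_an), row ABMR: regularity of the beams in all variables, and the equation
-/

set_option autoImplicit false

open scoped ContDiff Topology InnerProductSpace ComplexConjugate ENNReal
open MeasureTheory Filter Set

namespace Pool.Agent.VD

open Pool.Agent.VQ (CH)

noncomputable section

section gen

variable {d : ℕ} {X : Type} [NormedAddCommGroup X] [NormedSpace ℝ X]

theorem ABMR_D {E : Type} [NormedAddCommGroup E] [NormedSpace ℝ E] {F : X × V d → E} (hF : ContDiff ℝ ∞ F) :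
    ContDiff ℝ ∞ (fun y : X × V d => fderiv ℝ (fun w : V d => F (y.1, w)) y.2) := by
  have h : ContDiff ℝ ∞ (Function.uncurry (fun (y : X × V d) (w : V d) => F (y.1, w))) :=
    hF.comp ((contDiff_fst.comp contDiff_fst).prodMk contDiff_snd)
  exact h.fderiv contDiff_snd (by simp)

theorem ABMR_Q {G : V d → V d →L[ℝ] V d} (hd : ContDiff ℝ ∞ (dens G)) (hI : ContDiff ℝ ∞ (IG G)) {F : X × V d → ℂ} (hF : ContDiff ℝ ∞ F) (i : Fin d) :
    ContDiff ℝ ∞ (fun y : X × V d => ((dens G y.2 : ℝ) : ℂ) * fderiv ℝ (fun w : V d => F (y.1, w)) y.2 (IG G y.2 (EuclideanSpace.single i 1))) := by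
  refine (Complex.ofRealCLM.contDiff.comp (hd.comp contDiff_snd)).mul ?_
  exact (ABMR_D hF).clm_apply ((hI.comp contDiff_snd).clm_apply contDiff_const)

theorem ABMR_lap {G : V d → V d →L[ℝ] V d} (hd : ContDiff ℝ ∞ (dens G)) (hpos : ∀ x, 0 < dens G x) (hI : ContDiff ℝ ∞ (IG G)) {F : X × V d → ℂ}
    (hF : ContDiff ℝ ∞ F) : Continuous (fun y : X × V d => lap G (fun w => F (y.1, w)) y.2) := by
  have hc : ∀ i : Fin d, Continuous (fun y : X × V d => fderiv ℝ (fun w : V d => ((dens G w : ℝ) : ℂ) *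
      fderiv ℝ (fun w' : V d => F (y.1, w')) w (IG G w (EuclideanSpace.single i 1))) y.2 (EuclideanSpace.single i 1)) := fun i =>
    (ABMR_D (ABMR_Q hd hI hF i)).continuous.clm_apply continuous_const
  unfold lap
  refine Continuous.mul ?_ (continuous_finsetSum _ fun i _ => hc i)
  exact Complex.continuous_ofReal.comp ((hd.continuous.comp continuous_snd).inv₀ (fun y => (hpos y.2).ne'))

theorem ABMR_lapm {G : V d → V d →L[ℝ] V d} (hd : ContDiff ℝ ∞ (dens G)) (hI : ContDiff ℝ ∞ (IG G)) {F : V d → ℂ}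
    (hF : ContDiff ℝ ∞ F) (a : ℂ) (x : V d) : lap G (fun w => a * F w) x = a * lap G F x := by
  have hQ : ∀ i : Fin d, ContDiff ℝ ∞ (fun y : V d => ((dens G y : ℝ) : ℂ) * fderiv ℝ F y (IG G y (EuclideanSpace.single i 1))) := by
    intro i
    refine (Complex.ofRealCLM.contDiff.comp hd).mul ?_
    exact (hF.fderiv_right (m := ∞) (by simp)).clm_apply (hI.clm_apply contDiff_const)
  have hf : ∀ y : V d, fderiv ℝ (fun w => a * F w) y = a • fderiv ℝ F y := fun y =>
    fderiv_const_mul ((hF.differentiable (by simp)).differentiableAt) a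
  have e1 : ∀ i : Fin d, fderiv ℝ (fun y : V d => ((dens G y : ℝ) : ℂ) * fderiv ℝ (fun w => a * F w) y ((G y).inverse (EuclideanSpace.single i 1))) x =
      a • fderiv ℝ (fun y : V d => ((dens G y : ℝ) : ℂ) * fderiv ℝ F y (IG G y (EuclideanSpace.single i 1))) x := by
    intro i
    rw [← fderiv_const_mul (((hQ i).differentiable (by simp)).differentiableAt) a]
    congr 1
    funext y
    rw [hf y]
    change ((dens G y : ℝ) : ℂ) * (a * fderiv ℝ F y (IG G y (EuclideanSpace.single i 1))) = a * (((dens G y : ℝ) : ℂ) * fderiv ℝ F y (IG G y (EuclideanSpace.single i 1)))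
    ring
  unfold lap
  rw [mul_left_comm]
  have e2 : a * ∑ i : Fin d, fderiv ℝ (fun y => ((dens G y : ℝ) : ℂ) * fderiv ℝ F y ((G y).inverse (EuclideanSpace.single i 1))) x (EuclideanSpace.single i 1) =
      ∑ i : Fin d, a * fderiv ℝ (fun y => ((dens G y : ℝ) : ℂ) * fderiv ℝ F y ((G y).inverse (EuclideanSpace.single i 1))) x (EuclideanSpace.single i 1) :=
    Finset.mul_sum _ _ _
  rw [e2]
  congr 1
  refine Finset.sum_congr rfl fun i _ => ?_
  rw [e1 i]
  rfl

theorem ABMR_lap0 {G : V d → V d →L[ℝ] V d} {F : V d → ℂ} {x : V d} (h : F =ᶠ[𝓝 x] fun _ => 0) : lap G F x = 0 := by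
  have h1 : ∀ᶠ y in 𝓝 x, fderiv ℝ F y = 0 := by
    have h2 := h.fderiv (𝕜 := ℝ)
    filter_upwards [h2] with y hy
    rw [hy]
    exact fderiv_const_apply (0 : ℂ)
  have h3 : ∀ i : Fin d, fderiv ℝ (fun y : V d => ((dens G y : ℝ) : ℂ) * fderiv ℝ F y ((G y).inverse (EuclideanSpace.single i 1))) x = 0 := by
    intro i
    have h4 : (fun y : V d => ((dens G y : ℝ) : ℂ) * fderiv ℝ F y ((G y).inverse (EuclideanSpace.single i 1))) =ᶠ[𝓝 x] fun _ => 0 := by
      filter_upwards [h1] with y hy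
      rw [hy]
      change ((dens G y : ℝ) : ℂ) * (0 : ℂ) = 0
      ring
    rw [h4.fderiv_eq]
    exact fderiv_const_apply (0 : ℂ)
  unfold lap
  rw [Finset.sum_eq_zero, mul_zero]
  intro i _
  rw [h3 i]
  rfl

end gen

theorem ABMR_WhE {d : ℕ} {T : Type} [TopologicalSpace T] {A : T → V d →L[ℝ] V d} {a b : T → Fin d → ℂ} (hA : Continuous A) (ha : ∀ i, Continuous fun t => a t i)
    (hb : ∀ i, Continuous fun t => b t i) : Continuous fun t => WhE (A t) (a t) (b t) := by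
  unfold WhE
  refine continuous_finsetSum _ fun i _ => continuous_finsetSum _ fun j _ => ?_
  refine Continuous.mul ?_ ((ha i).mul (hb j))
  refine Complex.continuous_ofReal.comp ?_
  exact (EuclideanSpace.proj i : V d →L[ℝ] ℝ).continuous.comp (hA.clm_apply continuous_const)

theorem ABMR_Wdv {d : ℕ} {G : V d → V d →L[ℝ] V d} (hI : ContDiff ℝ ∞ (IG G)) {T : Type} [TopologicalSpace T] {q : T → P d} {M : T → MC d} (hq : Continuous q)
    (hM : ∀ i j, Continuous fun t => M t i j) : Continuous fun t => Wdv G (q t) (M t) 0 := by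
  have hW0 : Wcx (0 : V d) = 0 := by
    funext i
    simp [Wcx]
  have h1 : ∀ t, Wdv G (q t) (M t) 0 = (∑ i, WhE (fderiv ℝ (IG G) (q t).1 (EuclideanSpace.single i 1)) (Wcx (EuclideanSpace.single i 1)) (Wcx (q t).2)) +
      ∑ i, ∑ j, (((IG G (q t).1 (EuclideanSpace.single j 1)) i : ℝ) : ℂ) * M t i j := by
    intro t
    unfold Wdv
    rw [hW0, Matrix.mulVec_zero]
    simp only [add_zero]
  simp only [h1]
  have hf : Continuous (fderiv ℝ (IG G)) := hI.continuous_fderiv (by simp)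
  refine Continuous.add ?_ ?_
  · refine continuous_finsetSum _ fun i _ => ?_
    refine ABMR_WhE ?_ (fun j => continuous_const) (fun j => ?_)
    · exact (hf.comp (continuous_fst.comp hq)).clm_apply continuous_const
    · unfold Wcx
      exact Complex.continuous_ofReal.comp ((EuclideanSpace.proj j : V d →L[ℝ] ℝ).continuous.comp (continuous_snd.comp hq))
  · refine continuous_finsetSum _ fun i _ => continuous_finsetSum _ fun j _ => ?_
    refine Continuous.mul ?_ (hM i j)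
    refine Complex.continuous_ofReal.comp ?_
    exact (EuclideanSpace.proj i : V d →L[ℝ] ℝ).continuous.comp ((hI.continuous.comp (continuous_fst.comp hq)).clm_apply continuous_const)

/-- the beam vanishes away from its centre -/
theorem ABMR_zero {d : ℕ} {G : V d → V d →L[ℝ] V d} {Φ : ℝ → P d → P d} {ch : ℝ → ℝ} {ζ1 R : ℝ} {Y0 P0 : MC d} (hch : CH ch) (hR : 1 ≤ R) (p : P d) (t : ℝ) (w : V d)
    (h : R ^ (-(1 / 2) + ζ1) < ‖w - (Φ t p).1‖) : bt G Φ ch ζ1 R Y0 P0 p t w = 0 := by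
  have hR0 : 0 < R := by linarith
  have h1 : 1 ≤ R ^ (1 - 2 * ζ1) * ‖w - (Φ t p).1‖ ^ 2 := by
    have h2 : (R ^ (-(1 / 2) + ζ1)) ^ 2 ≤ ‖w - (Φ t p).1‖ ^ 2 := pow_le_pow_left₀ (Real.rpow_nonneg hR0.le _) h.le 2
    have h3 : R ^ (1 - 2 * ζ1) * (R ^ (-(1 / 2) + ζ1)) ^ 2 = 1 := by
      rw [← Real.rpow_natCast, ← Real.rpow_mul hR0.le, ← Real.rpow_add hR0]
      have : 1 - 2 * ζ1 + (-(1 / 2) + ζ1) * ((2 : ℕ) : ℝ) = 0 := by push_cast; ring
      rw [this, Real.rpow_zero]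
    calc 1 = R ^ (1 - 2 * ζ1) * (R ^ (-(1 / 2) + ζ1)) ^ 2 := h3.symm
      _ ≤ _ := mul_le_mul_of_nonneg_left h2 (Real.rpow_nonneg hR0.le _)
  unfold bt bm
  rw [hch.zero _ h1, zero_div, Complex.ofReal_zero, zero_mul, mul_zero]

theorem ABMR_proof (hAWRG : AWRG_stmt) (hAWMT : AWMT_stmt) (hAWCT : AWCT_stmt) (hAHLD : AHLD_stmt) (hAMVI : AMVI_stmt) : ABMR_stmt := by
  intro d Γ _ _ K k B G Φ L Y0 P0 ch ζ1 R hO hLag hch hζ hζ' hR
  have hF := hAWRG d Γ K k B G Φ L Y0 P0 ch ζ1 R hO hLag hch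
  obtain ⟨_, m2, m3, _, m5⟩ := hAWMT d G Φ hO.cls.met hO.flow L Y0 P0 hLag
  obtain ⟨_, hd, hpos, _⟩ := hAMVI d Γ K k B G hO.fd hO.cls
  obtain ⟨_, _, hHL⟩ := hAHLD d Γ K k B 1 0
  obtain ⟨_, _, hI, _⟩ := hHL G hO.fd hO.cls
  have hR0 : 0 < R := by linarith
  set F : (P d × ℝ) × V d → ℂ := fun x => Complex.exp (((R * ((Ham G x.1.1 + 1 / 2) * x.1.2) : ℝ) : ℂ) * Complex.I) *
    bm G ch ζ1 R (Mt Φ x.1.1 Y0 P0 x.1.2) (Φ x.1.2 x.1.1) x.2 with hFdef
  have hbt : ∀ (p : P d) (t : ℝ), bt G Φ ch ζ1 R Y0 P0 p t = fun w => amp Φ p Y0 P0 t * F ((p, t), w) := by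
    intro p t
    funext w
    unfold bt
    rw [mul_assoc]
  have hFx : ∀ x : P d × ℝ, ContDiff ℝ ∞ (fun w : V d => F (x, w)) := fun x => hF.comp (contDiff_const.prodMk contDiff_id)
  have hac : Continuous (fun x : (P d × ℝ) × V d => amp Φ x.1.1 Y0 P0 x.1.2) := m3.comp continuous_fst
  have hD1 : ∀ (p : P d) (t : ℝ), fderiv ℝ (bt G Φ ch ζ1 R Y0 P0 p t) = fun w => amp Φ p Y0 P0 t • fderiv ℝ (fun w => F ((p, t), w)) w := by
    intro p t
    funext w
    rw [hbt p t]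
    exact fderiv_const_mul (((hFx (p, t)).differentiable (by simp)).differentiableAt) _
  have hbtc : Continuous (fun x : (P d × ℝ) × V d => bt G Φ ch ζ1 R Y0 P0 x.1.1 x.1.2 x.2) := by
    have e : (fun x : (P d × ℝ) × V d => bt G Φ ch ζ1 R Y0 P0 x.1.1 x.1.2 x.2) = fun x => amp Φ x.1.1 Y0 P0 x.1.2 * F x := by
      funext x
      rw [hbt]
    rw [e]
    exact hac.mul hF.continuous
  have hlap : Continuous (fun x : (P d × ℝ) × V d => lap G (bt G Φ ch ζ1 R Y0 P0 x.1.1 x.1.2) x.2) := by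
    have e : (fun x : (P d × ℝ) × V d => lap G (bt G Φ ch ζ1 R Y0 P0 x.1.1 x.1.2) x.2) = fun x => amp Φ x.1.1 Y0 P0 x.1.2 * lap G (fun w => F (x.1, w)) x.2 := by
      funext x
      rw [hbt]
      exact ABMR_lapm hd hI (hFx x.1) _ _
    rw [e]
    exact hac.mul (ABMR_lap hd hpos hI hF)
  -- the derivative in time
  have hder : ∀ (p : P d) (t : ℝ) (w : V d), HasDerivAt (fun s => bt G Φ ch ζ1 R Y0 P0 p s w)
      ((-(1 / 2) * Wdv G (Φ t p) (Mt Φ p Y0 P0 t) 0 * amp Φ p Y0 P0 t) * F ((p, t), w) + amp Φ p Y0 P0 t * fderiv ℝ F ((p, t), w) ((0, 1), 0)) t := by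
    intro p t w
    have h1 : HasDerivAt (fun s : ℝ => ((p, s), w)) (((0 : P d), (1 : ℝ)), (0 : V d)) t :=
      ((hasDerivAt_const t p).prodMk (hasDerivAt_id t)).prodMk (hasDerivAt_const t w)
    have h2 : HasFDerivAt F (fderiv ℝ F ((p, t), w)) ((p, t), w) := ((hF.differentiable (by simp)).differentiableAt).hasFDerivAt
    have h3' : HasDerivAt (F ∘ fun s : ℝ => ((p, s), w)) (fderiv ℝ F ((p, t), w) ((0, 1), 0)) t := HasFDerivAt.comp_hasDerivAt t h2 h1
    have h3 : HasDerivAt (fun s : ℝ => F ((p, s), w)) (fderiv ℝ F ((p, t), w) ((0, 1), 0)) t := h3'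
    have e : (fun s => bt G Φ ch ζ1 R Y0 P0 p s w) = fun s => amp Φ p Y0 P0 s * F ((p, s), w) := by
      funext s
      rw [hbt]
    rw [e]
    exact (m5 p t).mul h3
  have hΦc : Continuous (fun x : P d × ℝ => Φ x.2 x.1) := hO.flow.smooth.continuous.comp (continuous_snd.prodMk continuous_fst)
  have hEbc : Continuous (fun x : (P d × ℝ) × V d => Eb G Φ ch ζ1 R Y0 P0 x.1.1 x.1.2 x.2) := by
    have e : (fun x : (P d × ℝ) × V d => Eb G Φ ch ζ1 R Y0 P0 x.1.1 x.1.2 x.2) = fun x => Complex.I *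
        ((-(1 / 2) * Wdv G (Φ x.1.2 x.1.1) (Mt Φ x.1.1 Y0 P0 x.1.2) 0 * amp Φ x.1.1 Y0 P0 x.1.2) * F x + amp Φ x.1.1 Y0 P0 x.1.2 * fderiv ℝ F x ((0, 1), 0)) -
        (((2 * R)⁻¹ : ℝ) : ℂ) * (-lap G (bt G Φ ch ζ1 R Y0 P0 x.1.1 x.1.2) x.2 - ((R ^ 2 : ℝ) : ℂ) * bt G Φ ch ζ1 R Y0 P0 x.1.1 x.1.2 x.2) := by
      funext x
      unfold Eb Hop
      rw [(hder x.1.1 x.1.2 x.2).deriv]
    rw [e]
    have hW : Continuous (fun x : (P d × ℝ) × V d => Wdv G (Φ x.1.2 x.1.1) (Mt Φ x.1.1 Y0 P0 x.1.2) 0) :=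
      (ABMR_Wdv hI hΦc (fun i j => (m2 i j).continuous)).comp continuous_fst
    have hDF : Continuous (fun x : (P d × ℝ) × V d => fderiv ℝ F x ((0, 1), 0)) := (hF.continuous_fderiv (by simp)).clm_apply continuous_const
    refine Continuous.sub ?_ ?_
    · exact continuous_const.mul ((((continuous_const.mul hW).mul hac).mul hF.continuous).add (hac.mul hDF))
    · exact continuous_const.mul (hlap.neg.sub (continuous_const.mul hbtc))
  refine ⟨?_, hbtc, ?_, ?_, hlap, hEbc, ?_, ?_⟩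
  · intro p t
    rw [hbt]
    exact contDiff_const.mul (hFx (p, t))
  · have e : (fun x : (P d × ℝ) × V d => fderiv ℝ (bt G Φ ch ζ1 R Y0 P0 x.1.1 x.1.2) x.2) = fun x => amp Φ x.1.1 Y0 P0 x.1.2 • fderiv ℝ (fun w => F (x.1, w)) x.2 := by
      funext x
      rw [hD1]
    rw [e]
    exact hac.smul (ABMR_D hF).continuous
  · have e : (fun x : (P d × ℝ) × V d => fderiv ℝ (fderiv ℝ (bt G Φ ch ζ1 R Y0 P0 x.1.1 x.1.2)) x.2) = fun x => amp Φ x.1.1 Y0 P0 x.1.2 •
        fderiv ℝ (fun w => fderiv ℝ (fun w' => F (x.1, w')) w) x.2 := by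
      funext x
      rw [hD1]
      have hs : ContDiff ℝ ∞ (fun w : V d => fderiv ℝ (fun w' => F (x.1, w')) w) := (hFx x.1).fderiv_right (m := ∞) (by simp)
      exact fderiv_fun_const_smul ((hs.differentiable (by simp)).differentiableAt) _
    rw [e, continuous_clm_apply]
    intro v
    have hv : Continuous (fun x : (P d × ℝ) × V d => fderiv ℝ (fun w => fderiv ℝ (fun w' => F (x.1, w')) w) x.2 v) :=
      (ABMR_D (ABMR_D hF)).continuous.clm_apply continuous_const
    exact hac.smul hv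
  · intro p t w hne
    by_contra hc
    push Not at hc
    have hz : bt G Φ ch ζ1 R Y0 P0 p t w = 0 := ABMR_zero hch hR p t w hc
    rcases hne with h | h
    · exact h hz
    · apply h
      have h1 : (fun s => bt G Φ ch ζ1 R Y0 P0 p s w) =ᶠ[𝓝 t] fun _ => 0 := by
        have hcont : Continuous (fun s : ℝ => ‖w - (Φ s p).1‖) := by
          have : Continuous (fun s : ℝ => Φ s p) := hΦc.comp (continuous_const.prodMk continuous_id)
          exact (continuous_const.sub (continuous_fst.comp this)).norm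
        filter_upwards [(hcont.tendsto t).eventually (lt_mem_nhds hc)] with s hs
        exact ABMR_zero hch hR p s w hs
      have h2 : bt G Φ ch ζ1 R Y0 P0 p t =ᶠ[𝓝 w] fun _ => 0 := by
        have hcont : Continuous (fun y : V d => ‖y - (Φ t p).1‖) := (continuous_id.sub continuous_const).norm
        filter_upwards [(hcont.tendsto w).eventually (lt_mem_nhds hc)] with y hy
        exact ABMR_zero hch hR p t y hy
      unfold Eb Hop
      rw [h1.deriv_eq, deriv_const, ABMR_lap0 h2, hz]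
      ring
  · intro p t w
    have h1 := hder p t w
    have h2 : -(Complex.I * Hop G R (bt G Φ ch ζ1 R Y0 P0 p t) w) - Complex.I * Eb G Φ ch ζ1 R Y0 P0 p t w = deriv (fun s => bt G Φ ch ζ1 R Y0 P0 p s w) t := by
      unfold Eb
      linear_combination (-deriv (fun s => bt G Φ ch ζ1 R Y0 P0 p s w) t) * Complex.I_mul_I
    rw [h2]
    exact h1.differentiableAt.hasDerivAt

end

end Pool.Agent.VD
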