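import Pool.Agent.helper47.VD.SpecA1

/-!
# Project VD (MP_07c750_an), row AUNG: unfolding, sums over the charts
-/

set_option autoImplicit false

open scoped ContDiff Topology InnerProductSpace ComplexConjugate ENNReal
open MeasureTheory Filter Set

namespace Pool.Agent.VD

open Pool.Agent.VQ (CH)

noncomputable section

theorem AUNG_proof (h1 : AMVI_stmt) (h2 : ADMD_stmt) : AUNG_stmt := by
  classical
  intro d Γ _ _ K k B G hF hC Λ F T hD g hg hinv
  obtain ⟨hcnt, _, _, _, _, hmp, _⟩ := h1 d Γ K k B G hF hC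
  haveI := hcnt
  rcases hD with ⟨hΛ, hFD, hT⟩ | ⟨hΛ, hFu, hT⟩
  · subst hT
    rw [tsum_singleton (1 : Γ) (fun γ => ∫⁻ z, g γ z ∂mv G), lintegral_tsum (fun γ => (hg γ).aemeasurable)]
    have h3 : ∀ γ : Γ, ∫⁻ z in F, g γ z ∂mv G = ∫⁻ w, (if γ • w ∈ F then g 1 w else 0) ∂mv G := by
      intro γ
      rw [← lintegral_indicator hFD.meas, ← (hmp γ).lintegral_comp ((hg γ).indicator hFD.meas)]
      refine lintegral_congr fun w => ?_
      by_cases hw : γ • w ∈ F
      · rw [indicator_of_mem hw, if_pos hw]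
        have h4 := hinv γ (by rw [hΛ]; exact Subgroup.mem_top γ) 1 w
        rwa [mul_one] at h4
      · rw [indicator_of_notMem hw, if_neg hw]
    rw [tsum_congr h3, ← lintegral_tsum]
    · refine lintegral_congr fun w => ?_
      obtain ⟨γ0, hγ0, hu⟩ := hFD.uniq w
      rw [tsum_eq_single γ0 (fun γ hγ => if_neg (fun hc => hγ (hu γ hc)))]
      exact (if_pos hγ0).symm
    · intro γ
      have h5 : (fun w => if γ • w ∈ F then g 1 w else 0) = ((fun w : V d => γ • w) ⁻¹' F).indicator (g 1) := by
        funext w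
        rfl
      rw [h5]
      exact ((hg 1).indicator ((hmp γ).measurable hFD.meas)).aemeasurable
  · subst hT
    rw [hFu, Measure.restrict_univ, lintegral_tsum (fun γ => (hg γ).aemeasurable)]
    exact tsum_univ (fun γ => ∫⁻ z, g γ z ∂mv G)

end

end Pool.Agent.VD
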