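import Pool.Agent.helper74.VD.SpecA3

/-!
# Project VD (MP_07c750_an), row AVOL: volumes of sets of indices
-/

set_option autoImplicit false

open scoped ContDiff Topology InnerProductSpace ComplexConjugate ENNReal
open MeasureTheory Filter Set

namespace Pool.Agent.VD

open Pool.Agent.VQ (CH)

noncomputable section

/-- `G x` is invertible -/
theorem AVOL_IG {d : ℕ} {G : V d → V d →L[ℝ] V d} (hG : IsMetric G) (x ξ : V d) : G x (IG G x ξ) = ξ := by
  have hinj : Function.Injective (G x) := by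
    intro a b hab
    by_contra hne
    have h1 := hG.pos x (a - b) (sub_ne_zero.2 hne)
    have h2 : G x (a - b) = 0 := by rw [map_sub, hab, sub_self]
    rw [h2, inner_zero_left] at h1
    exact lt_irrefl _ h1
  have hinj' : Function.Injective (G x : V d →ₗ[ℝ] V d) := hinj
  let e : V d ≃ₗ[ℝ] V d := LinearEquiv.ofInjectiveEndo (G x : V d →ₗ[ℝ] V d) hinj'
  let e' : V d ≃L[ℝ] V d := e.toContinuousLinearEquiv
  have he : (e' : V d →L[ℝ] V d) = G x := by
    refine ContinuousLinearMap.ext fun v => ?_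
    rfl
  unfold IG
  rw [← he, ContinuousLinearMap.inverse_equiv]
  exact e'.apply_symm_apply ξ

theorem AVOL_xi {d : ℕ} {Γ : Type} [Group Γ] [MulAction Γ (V d)] {K : Set (V d)} {k : ℝ} {B : ℕ → ℕ → ℝ} {G : V d → V d →L[ℝ] V d}
    (hC : Cls Γ K k B G) (m : ℕ) (p : P d) (hp : ‖p.1‖ ≤ m) (hE : |Ep G p| ≤ 2) : ‖p.2‖ ≤ 1 + 5 * (max (B m 0) 1) ^ 3 := by
  set b : ℝ := max (B m 0) 1 with hb
  have hb1 : 1 ≤ b := le_max_right _ _
  set u : V d := IG G p.1 p.2 with hu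
  have hGu : G p.1 u = p.2 := AVOL_IG hC.met p.1 p.2
  have h1 : ‖u‖ ^ 2 ≤ B m 0 * ⟪G p.1 u, u⟫_ℝ := hC.lo m p.1 u hp
  have hin : ⟪G p.1 u, u⟫_ℝ = 2 * Ham G p := by
    rw [hGu, real_inner_comm]
    unfold Ham
    rw [hu]
    ring
  have hH : Ham G p ≤ 5 / 2 := by
    have := (abs_le.1 hE).2
    unfold Ep at this
    linarith
  have hnn : 0 ≤ ⟪G p.1 u, u⟫_ℝ := by
    by_cases h0 : u = 0
    · rw [h0, inner_zero_right]
    · exact (hC.met.pos p.1 u h0).le
  have h2 : ‖u‖ ^ 2 ≤ b * 5 := by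
    refine h1.trans ?_
    calc B m 0 * ⟪G p.1 u, u⟫_ℝ ≤ b * ⟪G p.1 u, u⟫_ℝ := mul_le_mul_of_nonneg_right (le_max_left _ _) hnn
      _ ≤ b * 5 := by
        refine mul_le_mul_of_nonneg_left ?_ (by linarith)
        rw [hin]
        linarith
  have h3 : ‖G p.1‖ ≤ b := by
    have h4 := hC.bd m 0 p.1 hp
    rw [norm_iteratedFDeriv_zero] at h4
    exact h4.trans (le_max_left _ _)
  have h5 : ‖p.2‖ ≤ b * ‖u‖ := by
    rw [← hGu]
    exact ((G p.1).le_opNorm u).trans (mul_le_mul_of_nonneg_right h3 (norm_nonneg _))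
  have h6 : ‖p.2‖ ^ 2 ≤ 5 * b ^ 3 := by
    calc ‖p.2‖ ^ 2 ≤ (b * ‖u‖) ^ 2 := pow_le_pow_left₀ (norm_nonneg _) h5 2
      _ = b ^ 2 * ‖u‖ ^ 2 := by ring
      _ ≤ b ^ 2 * (b * 5) := mul_le_mul_of_nonneg_left h2 (by positivity)
      _ = 5 * b ^ 3 := by ring
  nlinarith [norm_nonneg p.2, sq_nonneg (‖p.2‖ - 1)]

/-- the sum over the finitely many charts -/
theorem AVOL_sum {d : ℕ} {Γ : Type} [Group Γ] [MulAction Γ (V d)] {r : ℝ} (hm : ∀ f : YS Γ d → ENNReal, Measurable f ↔ ∀ γ : Γ, Measurable fun p : P d => f (γ, p))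
    (hi : ∀ f : YS Γ d → ENNReal, Measurable f → ∫⁻ y, f y ∂mY Γ d = ∑' γ : Γ, ∫⁻ p : P d, f (γ, p)) (hfin : (SG Γ d r).Finite) (y : YS Γ d)
    (A : Γ → Set (P d)) (hA : ∀ κ, MeasurableSet (A κ)) (b : ENNReal) (hb : ∀ κ ∈ SG Γ d r, volume (A κ) ≤ b) (S : Set (YS Γ d))
    (hS : ∀ y' ∈ S, y.1⁻¹ * y'.1 ∈ SG Γ d r ∧ y'.2 ∈ A (y.1⁻¹ * y'.1)) : mY Γ d S ≤ (hfin.toFinset.card : ENNReal) * b := by
  classical
  let f : YS Γ d → ENNReal := fun y' => if y.1⁻¹ * y'.1 ∈ SG Γ d r then (A (y.1⁻¹ * y'.1)).indicator 1 y'.2 else 0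
  have hf : Measurable f := by
    rw [hm]
    intro γ
    by_cases h : y.1⁻¹ * γ ∈ SG Γ d r
    · have e : (fun p : P d => f (γ, p)) = (A (y.1⁻¹ * γ)).indicator 1 := by
        funext p
        change (if y.1⁻¹ * γ ∈ SG Γ d r then (A (y.1⁻¹ * γ)).indicator 1 p else 0) = _
        rw [if_pos h]
      rw [e]
      exact measurable_one.indicator (hA _)
    · have e : (fun p : P d => f (γ, p)) = fun _ => 0 := by
        funext p
        change (if y.1⁻¹ * γ ∈ SG Γ d r then (A (y.1⁻¹ * γ)).indicator 1 p else 0) = _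
        rw [if_neg h]
      rw [e]
      exact measurable_const
  have h1 : mY Γ d S ≤ ∫⁻ y', f y' ∂mY Γ d := by
    refine meas_le_lintegral₀ hf.aemeasurable fun y' hy' => ?_
    obtain ⟨a1, a2⟩ := hS y' hy'
    change 1 ≤ (if y.1⁻¹ * y'.1 ∈ SG Γ d r then (A (y.1⁻¹ * y'.1)).indicator 1 y'.2 else 0)
    rw [if_pos a1, indicator_of_mem a2]
    exact le_rfl
  refine h1.trans ?_
  rw [hi f hf]
  have h2 : ∀ γ : Γ, ∫⁻ p : P d, f (γ, p) ≤ (fun κ : Γ => if κ ∈ SG Γ d r then b else 0) (y.1⁻¹ * γ) := by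
    intro γ
    change ∫⁻ p : P d, (if y.1⁻¹ * γ ∈ SG Γ d r then (A (y.1⁻¹ * γ)).indicator 1 p else 0) ≤ if y.1⁻¹ * γ ∈ SG Γ d r then b else 0
    by_cases h : y.1⁻¹ * γ ∈ SG Γ d r
    · simp only [if_pos h]
      rw [lintegral_indicator_one (hA _)]
      exact hb _ h
    · simp only [if_neg h]
      rw [lintegral_zero]
  refine (ENNReal.tsum_le_tsum h2).trans ?_
  have h3 := (Equiv.mulLeft y.1⁻¹).tsum_eq (fun κ : Γ => if κ ∈ SG Γ d r then b else 0)
  have h4 : ∑' γ : Γ, (fun κ : Γ => if κ ∈ SG Γ d r then b else 0) (y.1⁻¹ * γ) = ∑' κ : Γ, (if κ ∈ SG Γ d r then b else 0) := h3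
  rw [h4, tsum_eq_sum (s := hfin.toFinset) (fun κ hκ => if_neg (fun hc => hκ (hfin.mem_toFinset.2 hc)))]
  rw [Finset.sum_congr rfl (fun κ hκ => if_pos (hfin.mem_toFinset.1 hκ)), Finset.sum_const, nsmul_eq_mul]

theorem AVOL_proof (hALFX : ALFX_stmt) (hADMD : ADMD_stmt) (hASGF : ASGF_stmt) : AVOL_stmt := by
  classical
  intro d Γ _ _ K k B r0 r hFd
  obtain ⟨hfin, _⟩ := hASGF d Γ K hFd r 0
  obtain ⟨m, hm⟩ := exists_nat_ge (max |r| |r0|)
  have hmr : r ≤ m := (le_abs_self r).trans ((le_max_left _ _).trans hm)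
  have hmr0 : r0 ≤ m := (le_abs_self r0).trans ((le_max_right _ _).trans hm)
  set C3 : ℝ := 1 + 5 * (max (B m 0) 1) ^ 3 with hC3
  have hC30 : 0 ≤ C3 := by
    have : 0 ≤ max (B m 0) 1 := zero_le_one.trans (le_max_right _ _)
    positivity
  set N : ℕ := hfin.toFinset.card with hN
  have hv1 : volume (Metric.ball (0 : P d) 1) < ⊤ := measure_ball_lt_top
  have hv2 : volume (Metric.closedBall (0 : P d) (m + C3)) < ⊤ := measure_closedBall_lt_top
  set v1 : ℝ := (volume (Metric.ball (0 : P d) 1)).toReal with hv1d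
  set v2 : ℝ := (volume (Metric.closedBall (0 : P d) (m + C3))).toReal with hv2d
  have hv10 : 0 ≤ v1 := ENNReal.toReal_nonneg
  have hv20 : 0 ≤ v2 := ENNReal.toReal_nonneg
  have e1 : volume (Metric.ball (0 : P d) 1) = ENNReal.ofReal v1 := (ENNReal.ofReal_toReal hv1.ne).symm
  have e2 : volume (Metric.closedBall (0 : P d) (m + C3)) = ENNReal.ofReal v2 := (ENNReal.ofReal_toReal hv2.ne).symm
  have hN0 : (0 : ℝ) ≤ N := Nat.cast_nonneg _
  have hNv1 : 0 ≤ (N : ℝ) * v1 := mul_nonneg hN0 hv10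
  have hNv2 : 0 ≤ (N : ℝ) * v2 := mul_nonneg hN0 hv20
  refine ⟨1 + C3 + N * v1 + N * v2, by linarith, ?_⟩
  intro R G Φ hR hO y q t s hs
  obtain ⟨l1, _, _, l4, _, _, _, l8, _⟩ := hALFX d Γ K k B G Φ hO
  obtain ⟨_, _, m3, m4, _, _⟩ := hADMD d Γ K k B G hO.fd hO.cls
  refine ⟨?_, ?_, ?_⟩
  · have hcont : ∀ κ : Γ, Continuous fun p : P d => lft κ (Φ t p) := by
      intro κ
      have h1 : Continuous fun p : P d => Φ t p := by
        have := hO.flow.smooth.continuous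
        exact this.comp (continuous_const.prodMk continuous_id)
      exact (l1 κ).continuous.comp h1
    have h1 := AVOL_sum (r := r) m3 m4 hfin y (fun κ => {p : P d | dist q (lft κ (Φ t p)) < s})
      (fun κ => measurableSet_lt ((continuous_const.dist (hcont κ)).measurable) measurable_const)
      (ENNReal.ofReal (s ^ (2 * d)) * ENNReal.ofReal v1) (fun κ _ => ?_)
      {y' | y' ∈ GW Γ G r0 2 R ∧ y.1⁻¹ * y'.1 ∈ SG Γ d r ∧ dist q (lft (y.1⁻¹ * y'.1) (Φ t y'.2)) < s}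
      (fun y' hy' => ⟨hy'.2.1, hy'.2.2⟩)
    · refine h1.trans ?_
      have e3 : (hfin.toFinset.card : ENNReal) * (ENNReal.ofReal (s ^ (2 * d)) * ENNReal.ofReal v1) = ENNReal.ofReal ((N : ℝ) * v1 * s ^ (2 * d)) := by
        rw [← ENNReal.ofReal_mul (by positivity), ← ENNReal.ofReal_natCast, ← ENNReal.ofReal_mul (Nat.cast_nonneg _)]
        congr 1
        ring
      rw [e3]
      refine ENNReal.ofReal_le_ofReal (mul_le_mul_of_nonneg_right ?_ (by positivity))
      linarith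
    · haveI : (volume : Measure (P d)).IsAddHaarMeasure := Measure.prod.instIsAddHaarMeasure volume volume
      have h2 : MeasurePreserving (fun p : P d => lft κ (Φ t p)) volume volume := (l4 κ).comp (l8 t)
      have h3 : {p : P d | dist q (lft κ (Φ t p)) < s} = (fun p : P d => lft κ (Φ t p)) ⁻¹' (Metric.ball q s) := by
        ext p
        rw [mem_preimage, Metric.mem_ball, dist_comm]
        rfl
      rw [h3, h2.measure_preimage Metric.isOpen_ball.measurableSet.nullMeasurableSet, Measure.addHaar_ball_of_pos volume q hs, ← e1]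
      have h4 : Module.finrank ℝ (P d) = 2 * d := by
        rw [Module.finrank_prod, finrank_euclideanSpace_fin]
        ring
      rw [h4]
  · have h1 := AVOL_sum (r := r) m3 m4 hfin y (fun _ => Metric.closedBall (0 : P d) (m + C3))
      (fun κ => Metric.isClosed_closedBall.measurableSet) (ENNReal.ofReal v2) (fun κ _ => e2.le)
      {y' | y' ∈ GW Γ G r0 2 R ∧ y.1⁻¹ * y'.1 ∈ SG Γ d r}
      (fun y' hy' => ⟨hy'.2, ?_⟩)
    · refine h1.trans ?_
      rw [← ENNReal.ofReal_natCast, ← ENNReal.ofReal_mul (Nat.cast_nonneg _)]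
      refine ENNReal.ofReal_le_ofReal ?_
      have : ((hfin.toFinset.card : ℕ) : ℝ) = (N : ℝ) := rfl
      rw [this]
      linarith
    · obtain ⟨a1, a2⟩ := hy'.1
      have a3 : ‖y'.2.1‖ ≤ m := a1.trans hmr0
      have a4 : |Ep G y'.2| ≤ 2 := by
        refine a2.trans ?_
        have : R ^ (-(1 / 4) : ℝ) ≤ 1 := Real.rpow_le_one_of_one_le_of_nonpos hR (by norm_num)
        linarith
      have a5 := AVOL_xi hO.cls m y'.2 a3 a4
      have hm0 : (0 : ℝ) ≤ m := Nat.cast_nonneg _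
      rw [mem_closedBall_zero_iff, Prod.norm_def]
      refine max_le ?_ ?_
      · linarith
      · rw [← hC3] at a5
        linarith
  · intro p hp hE
    have a5 := AVOL_xi hO.cls m p (hp.trans hmr) hE
    rw [← hC3] at a5
    linarith

end

end Pool.Agent.VD
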