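import Pool.Agent.helper47.VD.SpecA1b

/-!
# Project VD (MP_07c750_an), row AWSM: the weight
-/

set_option autoImplicit false

open scoped ContDiff Topology InnerProductSpace ComplexConjugate ENNReal
open MeasureTheory Filter Set

namespace Pool.Agent.VD

open Pool.Agent.VQ (CH)

noncomputable section

theorem AWSM_lip {d : ℕ} {Γ : Type} [Group Γ] [MulAction Γ (V d)] {r0 : ℝ} {χ : V d → ℝ} (hP : PU Γ r0 χ) :
    ∃ L : ℝ, 0 ≤ L ∧ ∀ x y : V d, |χ x ^ 2 - χ y ^ 2| ≤ L * ‖x - y‖ := by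
  have hc : HasCompactSupport (fun x : V d => χ x ^ 2) := by
    refine HasCompactSupport.intro (isCompact_closedBall (0 : V d) (r0 - 1)) fun x hx => ?_
    have h1 : χ x = 0 := by
      by_contra h
      exact hx (mem_closedBall_zero_iff.2 (hP.supp x h))
    rw [h1]
    norm_num
  obtain ⟨C, hC⟩ := (hP.smooth.pow 2).lipschitzWith_of_hasCompactSupport hc (by simp)
  refine ⟨C, C.2, fun x y => ?_⟩
  have h2 := hC.dist_le_mul x y
  rwa [Real.dist_eq, dist_eq_norm] at h2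

/-- the weight of one chart -/
def AWSM_m {d : ℕ} (χ : V d → ℝ) (ch : ℝ → ℝ) (ζ R : ℝ) (w : V d) : ℝ := ∫ x : V d, χ x ^ 2 * (bR d ch ζ R)⁻¹ * b0 ch ζ R (w - x) ^ 2

section

variable {d : ℕ} {Γ : Type} [Group Γ] [MulAction Γ (V d)] {r0 : ℝ} {χ : V d → ℝ} {ch : ℝ → ℝ} {ζ R : ℝ}

theorem AWSM_int (hP : PU Γ r0 χ) (b1 : ContDiff ℝ ∞ (b0 ch ζ R : V d → ℝ)) (w : V d) :
    Integrable (fun x : V d => χ x ^ 2 * (bR d ch ζ R)⁻¹ * b0 ch ζ R (w - x) ^ 2) := by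
  have hc : Continuous (fun x : V d => χ x ^ 2 * (bR d ch ζ R)⁻¹ * b0 ch ζ R (w - x) ^ 2) :=
    ((hP.smooth.continuous.pow 2).mul continuous_const).mul ((b1.continuous.comp (continuous_const.sub continuous_id)).pow 2)
  refine hc.integrable_of_hasCompactSupport ?_
  refine HasCompactSupport.intro (isCompact_closedBall (0 : V d) (r0 - 1)) fun x hx => ?_
  have h1 : χ x = 0 := by
    by_contra h
    exact hx (mem_closedBall_zero_iff.2 (hP.supp x h))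
  rw [h1]
  ring

theorem AWSM_int2 (b1 : ContDiff ℝ ∞ (b0 ch ζ R : V d → ℝ)) (b2 : ∀ v : V d, b0 ch ζ R v ≠ 0 → ‖v‖ ≤ R ^ (-(1 / 2) + ζ)) (w : V d) :
    Integrable (fun x : V d => b0 ch ζ R (w - x) ^ 2) := by
  have h : Integrable (fun v : V d => b0 ch ζ R v ^ 2) := by
    refine (b1.continuous.pow 2).integrable_of_hasCompactSupport ?_
    refine HasCompactSupport.intro (isCompact_closedBall (0 : V d) (R ^ (-(1 / 2) + ζ))) fun x hx => ?_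
    have h1 : b0 ch ζ R x = 0 := by
      by_contra h
      exact hx (mem_closedBall_zero_iff.2 (b2 x h))
    change b0 ch ζ R x ^ 2 = 0
    rw [h1]
    norm_num
  exact h.comp_sub_left w

theorem AWSM_li (hP : PU Γ r0 χ) (b1 : ContDiff ℝ ∞ (b0 ch ζ R : V d → ℝ)) (b5 : 0 < bR d ch ζ R) (w : V d) :
    ∫⁻ x : V d, ENNReal.ofReal (χ x ^ 2 * (bR d ch ζ R)⁻¹) * ENNReal.ofReal (b0 ch ζ R (w - x) ^ 2) = ENNReal.ofReal (AWSM_m χ ch ζ R w) := by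
  unfold AWSM_m
  rw [ofReal_integral_eq_lintegral_ofReal (AWSM_int hP b1 w)]
  · refine lintegral_congr fun x => ?_
    rw [← ENNReal.ofReal_mul]
    exact mul_nonneg (sq_nonneg _) (inv_pos.2 b5).le
  · exact Eventually.of_forall fun x => mul_nonneg (mul_nonneg (sq_nonneg _) (inv_pos.2 b5).le) (sq_nonneg _)

theorem AWSM_zero (hP : PU Γ r0 χ) (b2 : ∀ v : V d, b0 ch ζ R v ≠ 0 → ‖v‖ ≤ R ^ (-(1 / 2) + ζ)) (b4 : R ^ (-(1 / 2) + ζ) ≤ 1 / 4) (w : V d)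
    (hw : ¬ ‖w‖ ≤ r0) : AWSM_m χ ch ζ R w = 0 ∧ χ w = 0 := by
  constructor
  · unfold AWSM_m
    have h1 : ∀ x : V d, χ x ^ 2 * (bR d ch ζ R)⁻¹ * b0 ch ζ R (w - x) ^ 2 = 0 := by
      intro x
      by_cases hx : χ x = 0
      · rw [hx]; ring
      · by_cases hb : b0 ch ζ R (w - x) = 0
        · rw [hb]; ring
        · exfalso
          apply hw
          have h2 := hP.supp x hx
          have h3 := b2 _ hb
          have h4 : ‖w‖ ≤ ‖w - x‖ + ‖x‖ := by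
            have := norm_add_le (w - x) x
            rwa [sub_add_cancel] at this
          linarith
    simp only [h1, integral_zero]
  · by_contra h
    apply hw
    have h2 := hP.supp w h
    linarith

theorem AWSM_cl (hP : PU Γ r0 χ) {L : ℝ} (hL0 : 0 ≤ L) (hL : ∀ x y : V d, |χ x ^ 2 - χ y ^ 2| ≤ L * ‖x - y‖)
    (b1 : ContDiff ℝ ∞ (b0 ch ζ R : V d → ℝ)) (b2 : ∀ v : V d, b0 ch ζ R v ≠ 0 → ‖v‖ ≤ R ^ (-(1 / 2) + ζ)) (b5 : 0 < bR d ch ζ R) (w : V d) :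
    |AWSM_m χ ch ζ R w - χ w ^ 2| ≤ L * R ^ (-(1 / 2) + ζ) := by
  have hi1 := AWSM_int (ch := ch) (ζ := ζ) (R := R) hP b1 w
  have hi2 := AWSM_int2 b1 b2 w
  have hI : ∫ x : V d, b0 ch ζ R (w - x) ^ 2 = bR d ch ζ R := integral_sub_left_eq_self (fun v : V d => b0 ch ζ R v ^ 2) volume w
  have e1 : AWSM_m χ ch ζ R w - χ w ^ 2 = ∫ x : V d, (bR d ch ζ R)⁻¹ * ((χ x ^ 2 - χ w ^ 2) * b0 ch ζ R (w - x) ^ 2) := by
    have e2 : χ w ^ 2 = ∫ x : V d, χ w ^ 2 * (bR d ch ζ R)⁻¹ * b0 ch ζ R (w - x) ^ 2 := by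
      rw [integral_const_mul, hI, mul_assoc, inv_mul_cancel₀ b5.ne', mul_one]
    unfold AWSM_m
    conv_lhs => rw [e2]
    rw [← integral_sub hi1 (hi2.const_mul _)]
    refine integral_congr_ae (Eventually.of_forall fun x => ?_)
    change χ x ^ 2 * (bR d ch ζ R)⁻¹ * b0 ch ζ R (w - x) ^ 2 - χ w ^ 2 * (bR d ch ζ R)⁻¹ * b0 ch ζ R (w - x) ^ 2 = _
    ring
  rw [e1, ← Real.norm_eq_abs]
  have e3 : ∫ x : V d, (bR d ch ζ R)⁻¹ * (L * R ^ (-(1 / 2) + ζ) * b0 ch ζ R (w - x) ^ 2) = L * R ^ (-(1 / 2) + ζ) := by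
    rw [integral_const_mul, integral_const_mul, hI]
    field_simp
  rw [← e3]
  refine norm_integral_le_of_norm_le ((hi2.const_mul _).const_mul _) (Eventually.of_forall fun x => ?_)
  rw [Real.norm_eq_abs, abs_mul, abs_of_pos (inv_pos.2 b5), abs_mul, abs_of_nonneg (sq_nonneg (b0 ch ζ R (w - x)))]
  refine mul_le_mul_of_nonneg_left ?_ (inv_pos.2 b5).le
  by_cases hb : b0 ch ζ R (w - x) = 0
  · rw [hb]
    simp
  · refine mul_le_mul_of_nonneg_right ?_ (sq_nonneg _)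
    refine (hL x w).trans (mul_le_mul_of_nonneg_left ?_ hL0)
    rw [norm_sub_rev]
    exact b2 _ hb

end

theorem AWSM_proof (h1 : ABRD_stmt) (h2 : ANCH_stmt) : AWSM_stmt := by
  classical
  intro d Γ _ _ K r0 χ ch ζ hF hP hCH hζ hζ'
  obtain ⟨R1, hR1, hb⟩ := h1 d ch ζ hCH hζ hζ'
  obtain ⟨N, hN1, hN⟩ := h2 d Γ K r0 hF
  obtain ⟨L, hL0, hL⟩ := AWSM_lip hP
  refine ⟨max R1 ((N * L + 1) ^ 8), hR1.trans (le_max_left _ _), fun R hR z => ?_⟩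
  have hRR1 : R1 ≤ R := (le_max_left _ _).trans hR
  have hRN : (N * L + 1) ^ 8 ≤ R := (le_max_right _ _).trans hR
  have hR1' : 1 ≤ R := hR1.trans hRR1
  have hR0 : 0 < R := by linarith
  obtain ⟨b1, b2, b3, b4, b5, _⟩ := hb R hRR1
  obtain ⟨hfin, hcard, _⟩ := hN z
  have hNL : 0 ≤ (N : ℝ) * L := mul_nonneg (Nat.cast_nonneg _) hL0
  -- smallness
  have hsm : (N : ℝ) * (L * R ^ (-(1 / 2) + ζ)) ≤ R ^ (-(1 / 4) : ℝ) := by
    have g1 : R ^ (-(1 / 2) + ζ) ≤ R ^ (-(3 / 8) : ℝ) := Real.rpow_le_rpow_of_exponent_le hR1' (by linarith)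
    have g2 : (N : ℝ) * L ≤ R ^ (1 / 8 : ℝ) := by
      have g3 : ((N * L + 1) ^ 8 : ℝ) ^ (1 / 8 : ℝ) ≤ R ^ (1 / 8 : ℝ) := Real.rpow_le_rpow (by positivity) hRN (by norm_num)
      have g4 : ((N * L + 1) ^ 8 : ℝ) ^ (1 / 8 : ℝ) = N * L + 1 := by
        rw [← Real.rpow_natCast, ← Real.rpow_mul (by linarith)]
        norm_num
      rw [g4] at g3
      linarith
    calc (N : ℝ) * (L * R ^ (-(1 / 2) + ζ)) = (N * L) * R ^ (-(1 / 2) + ζ) := by ring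
      _ ≤ R ^ (1 / 8 : ℝ) * R ^ (-(3 / 8) : ℝ) := mul_le_mul g2 g1 (Real.rpow_nonneg hR0.le _) (Real.rpow_nonneg hR0.le _)
      _ = R ^ (-(1 / 4) : ℝ) := by
        rw [← Real.rpow_add hR0]
        norm_num
  set S : Finset Γ := hfin.toFinset with hS
  have hmem : ∀ γ : Γ, γ ∈ S ↔ ‖γ⁻¹ • z‖ ≤ r0 := fun γ => hfin.mem_toFinset
  have hScard : (S.card : ℝ) ≤ N := by
    have g1 : S.card = {γ : Γ | ‖γ⁻¹ • z‖ ≤ r0}.ncard := (Set.ncard_eq_toFinset_card _ hfin).symm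
    rw [g1]
    exact_mod_cast hcard
  have hm0 : ∀ w : V d, 0 ≤ AWSM_m χ ch ζ R w := fun w => integral_nonneg fun x =>
    mul_nonneg (mul_nonneg (sq_nonneg _) (inv_pos.2 b5).le) (sq_nonneg _)
  have hsum : ∑' γ : Γ, ∫⁻ x : V d, ENNReal.ofReal (χ x ^ 2 * (bR d ch ζ R)⁻¹) * ENNReal.ofReal (b0 ch ζ R (γ⁻¹ • z - x) ^ 2) =
      ENNReal.ofReal (∑ γ ∈ S, AWSM_m χ ch ζ R (γ⁻¹ • z)) := by
    rw [tsum_congr (fun γ : Γ => AWSM_li hP b1 b5 (γ⁻¹ • z)), tsum_eq_sum (s := S), ENNReal.ofReal_sum_of_nonneg (fun γ _ => hm0 _)]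
    intro γ hγ
    rw [(AWSM_zero hP b2 b4 (γ⁻¹ • z) (fun hc => hγ ((hmem γ).2 hc))).1, ENNReal.ofReal_zero]
  have hone : ∑ γ ∈ S, χ (γ⁻¹ • z) ^ 2 = 1 := by
    rw [← hP.sum z, finsum_eq_sum_of_support_subset]
    intro γ hγ
    rw [Function.mem_support] at hγ
    rw [Finset.mem_coe, hmem]
    by_contra hc
    apply hγ
    rw [(AWSM_zero (ch := ch) (ζ := ζ) (R := R) hP b2 b4 (γ⁻¹ • z) hc).2]
    norm_num
  have hdiff : |(∑ γ ∈ S, AWSM_m χ ch ζ R (γ⁻¹ • z)) - 1| ≤ R ^ (-(1 / 4) : ℝ) := by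
    have e0 : (∑ γ ∈ S, AWSM_m χ ch ζ R (γ⁻¹ • z)) - 1 = ∑ γ ∈ S, (AWSM_m χ ch ζ R (γ⁻¹ • z) - χ (γ⁻¹ • z) ^ 2) := by
      rw [Finset.sum_sub_distrib, hone]
    rw [e0]
    refine (Finset.abs_sum_le_sum_abs _ _).trans ?_
    refine (Finset.sum_le_sum fun γ _ => AWSM_cl hP hL0 hL b1 b2 b5 (γ⁻¹ • z)).trans ?_
    rw [Finset.sum_const, nsmul_eq_mul]
    exact (mul_le_mul_of_nonneg_right hScard (mul_nonneg hL0 (Real.rpow_nonneg hR0.le _))).trans hsm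
  rw [hsum]
  have h3 := abs_le.1 hdiff
  exact ⟨ENNReal.ofReal_le_ofReal (by linarith [h3.1]), ENNReal.ofReal_le_ofReal (by linarith [h3.2])⟩

end

end Pool.Agent.VD
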