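import Pool.Agent.helper80.VD.SpecD

/-!
# Project VD (MP_07c750_an), row DVV: the invariant distance on `V d`
-/

set_option autoImplicit false

open scoped ContDiff Topology InnerProductSpace
open MeasureTheory Filter Set

namespace Pool.Agent.VD

noncomputable section

section

variable {d : ℕ} {Γ : Type} [Group Γ] [MulAction Γ (V d)] {K : Set (V d)} {χ : V d → ℝ}

theorem DVV_sm (hχ : Ctf K χ) : ContDiff ℝ ∞ (embV χ) :=
  (hχ.smooth.smul contDiff_id).prodMk (contDiff_const.mul hχ.smooth)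

theorem DVV_zero (x : V d) (hx : x ∉ tsupport χ) : embV χ x = 0 := by
  unfold embV
  rw [image_eq_zero_of_notMem_tsupport hx, zero_smul, mul_zero]
  rfl

theorem DVV_bd (hχ : Ctf K χ) : ∃ M : ℝ, ∀ x, ‖embV χ x‖ ≤ M := by
  have h : HasCompactSupport (embV χ) := HasCompactSupport.intro hχ.supp (fun x hx => DVV_zero x hx)
  exact h.exists_bound_of_continuous (DVV_sm hχ).continuous

theorem DVV_b (hχ : Ctf K χ) (x y : V d) : BddAbove (range fun γ : Γ => ‖embV χ (γ • x) - embV χ (γ • y)‖) := by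
  obtain ⟨M, hM⟩ := DVV_bd hχ
  refine ⟨M + M, ?_⟩
  rintro _ ⟨γ, rfl⟩
  exact (norm_sub_le _ _).trans (add_le_add (hM _) (hM _))

theorem DVV_le (hχ : Ctf K χ) (γ : Γ) (x y : V d) : ‖embV χ (γ • x) - embV χ (γ • y)‖ ≤ dV Γ χ x y :=
  le_ciSup (DVV_b hχ x y) γ

theorem DVV_nn (x y : V d) : 0 ≤ dV Γ χ x y := Real.iSup_nonneg fun _ => norm_nonneg _

theorem DVV_self (x : V d) : dV Γ χ x x = 0 := by
  unfold dV
  simp

theorem DVV_symm (x y : V d) : dV Γ χ x y = dV Γ χ y x := by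
  unfold dV
  refine congrArg iSup ?_
  funext γ
  exact norm_sub_rev _ _

theorem DVV_tri (hχ : Ctf K χ) (x y z : V d) : dV Γ χ x z ≤ dV Γ χ x y + dV Γ χ y z := by
  refine ciSup_le fun γ => ?_
  have e : embV χ (γ • x) - embV χ (γ • z) = (embV χ (γ • x) - embV χ (γ • y)) + (embV χ (γ • y) - embV χ (γ • z)) := by abel
  rw [e]
  exact (norm_add_le _ _).trans (add_le_add (DVV_le hχ γ x y) (DVV_le hχ γ y z))

theorem DVV_inv (δ : Γ) (x y : V d) : dV Γ χ (δ • x) (δ • y) = dV Γ χ x y := by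
  unfold dV
  have h := (Equiv.mulRight δ).surjective.iSup_comp (fun γ : Γ => ‖embV χ (γ • x) - embV χ (γ • y)‖)
  rw [← h]
  refine congrArg iSup ?_
  funext γ
  rw [Equiv.coe_mulRight, mul_smul, mul_smul]

theorem DVV_up (hF : FdK Γ K) (hχ : Ctf K χ) (m : ℕ) :
    ∃ C : ℝ, 1 ≤ C ∧ ∀ x y : V d, ‖x‖ ≤ m → ‖y‖ ≤ m → dV Γ χ x y ≤ C * ‖x - y‖ := by
  classical
  have hL : IsCompact (Metric.closedBall (0 : V d) m ∪ tsupport χ) := (isCompact_closedBall 0 _).union hχ.supp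
  have hfin := hF.proper _ hL
  have hlip : ∀ γ : Γ, ∃ C : ℝ, 0 ≤ C ∧ ∀ x y : V d, ‖x‖ ≤ m → ‖y‖ ≤ m → ‖embV χ (γ • x) - embV χ (γ • y)‖ ≤ C * ‖x - y‖ := by
    intro γ
    have hs : ContDiff ℝ ∞ (fun x : V d => embV χ (γ • x)) := (DVV_sm hχ).comp (hF.smooth γ)
    have hc : Continuous (fderiv ℝ (fun x : V d => embV χ (γ • x))) := hs.continuous_fderiv (by simp)
    obtain ⟨C, hC⟩ := (isCompact_closedBall (0 : V d) (m : ℝ)).exists_bound_of_continuousOn hc.continuousOn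
    refine ⟨max C 0, le_max_right _ _, fun x y hx hy => ?_⟩
    exact (convex_closedBall (0 : V d) (m : ℝ)).norm_image_sub_le_of_norm_fderiv_le (𝕜 := ℝ) (f := fun x : V d => embV χ (γ • x))
      (C := max C 0) (fun z _ => (hs.differentiable (by simp)).differentiableAt) (fun z hz => (hC z hz).trans (le_max_left _ _))
      (mem_closedBall_zero_iff.2 hy) (mem_closedBall_zero_iff.2 hx)
  choose Cγ hCγ0 hCγ using hlip
  refine ⟨1 + ∑ γ ∈ hfin.toFinset, Cγ γ, ?_, ?_⟩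
  · have := Finset.sum_nonneg (fun γ (_ : γ ∈ hfin.toFinset) => hCγ0 γ)
    linarith
  · intro x y hx hy
    refine ciSup_le fun γ => ?_
    by_cases hγ : γ ∈ hfin.toFinset
    · refine (hCγ γ x y hx hy).trans (mul_le_mul_of_nonneg_right ?_ (norm_nonneg _))
      have := Finset.single_le_sum (fun δ (_ : δ ∈ hfin.toFinset) => hCγ0 δ) hγ
      linarith
    · have h1 : ∀ z : V d, ‖z‖ ≤ m → embV χ (γ • z) = 0 := fun z hz =>
        DVV_zero _ (fun hc => hγ (hfin.mem_toFinset.2 ⟨z, Or.inl (mem_closedBall_zero_iff.2 hz), Or.inr hc⟩))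
      rw [h1 x hx, h1 y hy, sub_zero, norm_zero]
      have := Finset.sum_nonneg (fun γ (_ : γ ∈ hfin.toFinset) => hCγ0 γ)
      positivity

theorem DVV_lo (hF : FdK Γ K) (hχ : Ctf K χ) :
    ∃ C : ℝ, 1 ≤ C ∧ ∀ x y : V d, x ∈ K → dV Γ χ x y ≤ 1 / 2 → ‖x - y‖ ≤ C * dV Γ χ x y := by
  obtain ⟨R, hR⟩ := hF.compact.exists_bound_of_continuousOn (f := fun x : V d => x) continuousOn_id
  refine ⟨2 + |R|, by have := abs_nonneg R; linarith, fun x y hx hd => ?_⟩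
  have h0 : 0 ≤ dV Γ χ x y := DVV_nn x y
  have h1 : ‖embV χ x - embV χ y‖ ≤ dV Γ χ x y := by
    have := DVV_le hχ (1 : Γ) x y
    rwa [one_smul, one_smul] at this
  have hx1 : χ x = 1 := hχ.one x (Metric.self_subset_cthickening K hx)
  have h2 : ‖x - χ y • y‖ ≤ dV Γ χ x y := by
    have h3 := (norm_fst_le (embV χ x - embV χ y)).trans h1
    have h4 : (embV χ x - embV χ y).1 = x - χ y • y := by
      change χ x • x - χ y • y = _
      rw [hx1, one_smul]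
    rwa [h4] at h3
  have h3 : |3 - 3 * χ y| ≤ dV Γ χ x y := by
    have h3 := (norm_snd_le (embV χ x - embV χ y)).trans h1
    have h4 : (embV χ x - embV χ y).2 = 3 - 3 * χ y := by
      change 3 * χ x - 3 * χ y = _
      rw [hx1, mul_one]
    rwa [h4, Real.norm_eq_abs] at h3
  have h5 := (abs_le.1 h3).2
  have h6 : 5 / 6 ≤ χ y := by linarith
  have hpos : 0 < χ y := by linarith
  have hle : χ y ≤ 1 := (hχ.bd y).2
  have e : x - y = (χ y)⁻¹ • (x - χ y • y) - ((χ y)⁻¹ - 1) • x := by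
    rw [smul_sub, smul_smul, inv_mul_cancel₀ hpos.ne', one_smul, sub_smul, one_smul]
    abel
  have h7 : (χ y)⁻¹ ≤ 6 / 5 := by
    rw [inv_le_comm₀ hpos (by norm_num)]
    linarith
  have h8 : 0 ≤ (χ y)⁻¹ - 1 := by
    rw [sub_nonneg, one_le_inv₀ hpos]
    exact hle
  have h9 : (χ y)⁻¹ - 1 ≤ dV Γ χ x y := by
    have h10 : (χ y)⁻¹ - 1 = (χ y)⁻¹ * (1 - χ y) := by
      field_simp
    rw [h10]
    have h11 : 0 ≤ 1 - χ y := by linarith
    calc (χ y)⁻¹ * (1 - χ y) ≤ 6 / 5 * (1 - χ y) := mul_le_mul_of_nonneg_right h7 h11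
      _ ≤ dV Γ χ x y := by linarith
  have hRx : ‖x‖ ≤ |R| := (hR x hx).trans (le_abs_self R)
  calc ‖x - y‖ ≤ ‖(χ y)⁻¹ • (x - χ y • y)‖ + ‖((χ y)⁻¹ - 1) • x‖ := by
        conv_lhs => rw [e]
        exact norm_sub_le _ _
    _ = (χ y)⁻¹ * ‖x - χ y • y‖ + ((χ y)⁻¹ - 1) * ‖x‖ := by
        rw [norm_smul, norm_smul, Real.norm_of_nonneg (inv_pos.2 hpos).le, Real.norm_of_nonneg h8]
    _ ≤ 6 / 5 * dV Γ χ x y + dV Γ χ x y * |R| :=
        add_le_add (mul_le_mul h7 h2 (norm_nonneg _) (by norm_num)) (mul_le_mul h9 hRx (norm_nonneg _) h0)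
    _ ≤ (2 + |R|) * dV Γ χ x y := by nlinarith

theorem DVV_co (hF : FdK Γ K) (hχ : Ctf K χ) : Continuous (Function.uncurry (dV Γ χ : V d → V d → ℝ)) := by
  rw [continuous_iff_continuousAt]
  rintro ⟨x0, y0⟩
  obtain ⟨m, hm⟩ := exists_nat_gt (max ‖x0‖ ‖y0‖ + 1)
  obtain ⟨C, hC1, hC⟩ := DVV_up hF hχ m
  have hx0 : ‖x0‖ ≤ max ‖x0‖ ‖y0‖ := le_max_left _ _
  have hy0 : ‖y0‖ ≤ max ‖x0‖ ‖y0‖ := le_max_right _ _
  unfold ContinuousAt
  rw [tendsto_iff_dist_tendsto_zero]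
  have hlim : Tendsto (fun z : V d × V d => C * ‖z.1 - x0‖ + C * ‖z.2 - y0‖) (𝓝 (x0, y0)) (𝓝 0) := by
    have h1 : Continuous (fun z : V d × V d => C * ‖z.1 - x0‖ + C * ‖z.2 - y0‖) := by fun_prop
    have h2 := h1.tendsto (x0, y0)
    simpa using h2
  refine squeeze_zero' (Eventually.of_forall fun _ => dist_nonneg) ?_ hlim
  have hev : ∀ᶠ z : V d × V d in 𝓝 (x0, y0), dist z (x0, y0) < 1 := Metric.ball_mem_nhds _ one_pos
  filter_upwards [hev] with z hz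
  obtain ⟨x, y⟩ := z
  rw [Prod.dist_eq] at hz
  have hz1 : dist x x0 < 1 := lt_of_le_of_lt (le_max_left _ _) hz
  have hz2 : dist y y0 < 1 := lt_of_le_of_lt (le_max_right _ _) hz
  rw [dist_eq_norm] at hz1 hz2
  have hx : ‖x‖ ≤ m := by
    have : ‖x‖ ≤ ‖x - x0‖ + ‖x0‖ := by
      have := norm_add_le (x - x0) x0
      rwa [sub_add_cancel] at this
    linarith
  have hy : ‖y‖ ≤ m := by
    have : ‖y‖ ≤ ‖y - y0‖ + ‖y0‖ := by
      have := norm_add_le (y - y0) y0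
      rwa [sub_add_cancel] at this
    linarith
  have a1 := hC x x0 hx (by linarith)
  have a2 := hC y y0 hy (by linarith)
  change dist (dV Γ χ x y) (dV Γ χ x0 y0) ≤ C * ‖x - x0‖ + C * ‖y - y0‖
  rw [Real.dist_eq, abs_le]
  have t1 := DVV_tri (Γ := Γ) hχ x x0 y
  have t2 := DVV_tri (Γ := Γ) hχ x0 y0 y
  have t3 := DVV_tri (Γ := Γ) hχ x0 x y0
  have t4 := DVV_tri (Γ := Γ) hχ x y y0
  have s1 := DVV_symm (Γ := Γ) (χ := χ) x0 x
  have s2 := DVV_symm (Γ := Γ) (χ := χ) y0 y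
  constructor <;> linarith

theorem DVV_min (hF : FdK Γ K) (γ : Γ) (hγ : γ ≠ 1) : ∃ c : ℝ, 0 < c ∧ ∀ x ∈ K, c ≤ ‖x - γ • x‖ := by
  rcases K.eq_empty_or_nonempty with hK | hK
  · exact ⟨1, one_pos, fun x hx => by rw [hK] at hx; exact absurd hx (notMem_empty x)⟩
  · have hc : ContinuousOn (fun x : V d => ‖x - γ • x‖) K := (continuous_id.sub (hF.smooth γ).continuous).norm.continuousOn
    obtain ⟨x0, hx0, hmin⟩ := hF.compact.exists_isMinOn hK hc
    refine ⟨‖x0 - γ • x0‖, ?_, fun x hx => hmin hx⟩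
    rw [norm_pos_iff, sub_ne_zero]
    intro h
    exact hγ (hF.free γ x0 h.symm)

theorem DVV_fmin (hF : FdK Γ K) (S : Finset Γ) : ∃ c : ℝ, 0 < c ∧ ∀ γ ∈ S, γ ≠ 1 → ∀ x ∈ K, c ≤ ‖x - γ • x‖ := by
  classical
  induction S using Finset.induction_on with
  | empty => exact ⟨1, one_pos, fun γ hγ => absurd hγ (Finset.notMem_empty γ)⟩
  | insert a S ha ih =>
    obtain ⟨c, hc, h⟩ := ih
    by_cases ha1 : a = 1
    · refine ⟨c, hc, fun γ hγ hne => ?_⟩
      rcases Finset.mem_insert.1 hγ with h1 | h1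
      · exact absurd (h1.trans ha1) hne
      · exact h γ h1 hne
    · obtain ⟨c', hc', h'⟩ := DVV_min hF a ha1
      refine ⟨min c c', lt_min hc hc', fun γ hγ hne x hx => ?_⟩
      rcases Finset.mem_insert.1 hγ with h1 | h1
      · rw [h1]
        exact (min_le_right _ _).trans (h' x hx)
      · exact (min_le_left _ _).trans (h γ h1 hne x hx)

theorem DVV_inj (hF : FdK Γ K) (hχ : Ctf K χ) : ∃ c : ℝ, 0 < c ∧ ∀ (γ : Γ) (x : V d), dV Γ χ (γ • x) x ≤ c → γ = 1 := by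
  obtain ⟨C, hC1, hC⟩ := DVV_lo hF hχ
  obtain ⟨R, hR⟩ := hF.compact.exists_bound_of_continuousOn (f := fun x : V d => x) continuousOn_id
  have hfin := hF.proper (Metric.closedBall (0 : V d) (|R| + 1)) (isCompact_closedBall 0 _)
  obtain ⟨c0, hc0, hS⟩ := DVV_fmin hF hfin.toFinset
  have hCpos : 0 < C := by linarith
  have hK : ∀ (γ : Γ) (x : V d), x ∈ K → dV Γ χ (γ • x) x ≤ min (1 / (2 * C)) (c0 / (2 * C)) → γ = 1 := by
    intro γ x hx hd
    by_contra hne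
    have hd1 : dV Γ χ x (γ • x) ≤ 1 / (2 * C) := by
      rw [DVV_symm]
      exact hd.trans (min_le_left _ _)
    have hd2 : dV Γ χ x (γ • x) ≤ c0 / (2 * C) := by
      rw [DVV_symm]
      exact hd.trans (min_le_right _ _)
    have h1 : 1 / (2 * C) ≤ 1 / 2 := by
      rw [div_le_div_iff₀ (by positivity) (by norm_num)]
      linarith
    have h2 := hC x (γ • x) hx (hd1.trans h1)
    have h3 : ‖x - γ • x‖ ≤ 1 / 2 := by
      refine h2.trans ?_
      calc C * dV Γ χ x (γ • x) ≤ C * (1 / (2 * C)) := mul_le_mul_of_nonneg_left hd1 hCpos.le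
        _ = 1 / 2 := by field_simp
    have h4 : ‖x - γ • x‖ ≤ c0 / 2 := by
      refine h2.trans ?_
      calc C * dV Γ χ x (γ • x) ≤ C * (c0 / (2 * C)) := mul_le_mul_of_nonneg_left hd2 hCpos.le
        _ = c0 / 2 := by field_simp
    have hRx : ‖x‖ ≤ |R| := (hR x hx).trans (le_abs_self R)
    have hγx : ‖γ • x‖ ≤ |R| + 1 := by
      have h5 : ‖γ • x‖ ≤ ‖x‖ + ‖x - γ • x‖ := by
        have := norm_sub_le x (x - γ • x)
        rwa [sub_sub_cancel] at this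
      linarith
    have hmem : γ ∈ hfin.toFinset := hfin.mem_toFinset.2 ⟨x, mem_closedBall_zero_iff.2 (by linarith), mem_closedBall_zero_iff.2 hγx⟩
    have h6 := hS γ hmem hne x hx
    linarith
  refine ⟨min (1 / (2 * C)) (c0 / (2 * C)), lt_min (by positivity) (by positivity), fun γ x hd => ?_⟩
  obtain ⟨δ, hδ⟩ := hF.cover x
  have h1 : dV Γ χ ((δ * γ * δ⁻¹) • (δ • x)) (δ • x) = dV Γ χ (γ • x) x := by
    have h2 : (δ * γ * δ⁻¹) • (δ • x) = δ • (γ • x) := by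
      rw [← mul_smul, ← mul_smul]
      congr 1
      group
    rw [h2, DVV_inv]
  have h3 := hK (δ * γ * δ⁻¹) (δ • x) hδ (by rw [h1]; exact hd)
  have h4 : γ = δ⁻¹ * (δ * γ * δ⁻¹) * δ := by group
  rw [h4, h3]
  group

end

theorem DVV_proof (hGLF : GLF_stmt) (hDLL : DLL_stmt) (hDPP : DPP_stmt) : DVV_stmt := by
  intro d Γ _ _ K χ hF hχ
  refine ⟨DVV_b hχ, DVV_nn, DVV_self, DVV_symm, DVV_tri hχ, DVV_inv, DVV_co hF hχ, ?_, DVV_lo hF hχ, DVV_up hF hχ, DVV_inj hF hχ⟩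
  intro p q
  obtain ⟨hb, _⟩ := hDPP d Γ K χ hF hχ
  refine ciSup_le fun γ => ?_
  have h1 : ‖embP χ (lft γ p) - embP χ (lft γ q)‖ ≤ dP Γ χ p q := le_ciSup (hb p q) γ
  refine le_trans ?_ h1
  rw [Prod.norm_def]
  refine max_le ?_ ?_
  · exact norm_fst_le (embP χ (lft γ p) - embP χ (lft γ q))
  · exact (norm_snd_le (embP χ (lft γ p) - embP χ (lft γ q)).2).trans (norm_snd_le (embP χ (lft γ p) - embP χ (lft γ q)))

end

end Pool.Agent.VD
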