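import Pool.Agent.helper80.VD.SpecF

/-!
# Project VD (MP_07c750_an), row GHL: the lifts of the isometries preserve the Hamiltonian and its field
-/

set_option autoImplicit false

open scoped ContDiff Topology InnerProductSpace
open MeasureTheory Filter Set

namespace Pool.Agent.VD

noncomputable section

/-- the symplectic form is not degenerate -/
theorem GHL_nd {d : ℕ} (a b : P d) (h : ∀ w : P d, omg a w = omg b w) : a = b := by
  have h1 : a.1 = b.1 := by
    have h2 := h (0, a.1 - b.1)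
    unfold omg at h2
    simp only [inner_zero_right, zero_sub] at h2
    have h3 : ⟪a.1 - b.1, a.1 - b.1⟫_ℝ = 0 := by
      rw [inner_sub_right]
      linarith
    exact sub_eq_zero.1 (inner_self_eq_zero.1 h3)
  have h4 : a.2 = b.2 := by
    have h2 := h (a.2 - b.2, 0)
    unfold omg at h2
    simp only [inner_zero_left, sub_zero] at h2
    have h3 : ⟪a.2 - b.2, a.2 - b.2⟫_ℝ = 0 := by
      rw [inner_sub_left]
      linarith
    exact sub_eq_zero.1 (inner_self_eq_zero.1 h3)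
  exact Prod.ext h1 h4

theorem GHL_vel {d : ℕ} {Γ : Type} [Group Γ] [MulAction Γ (V d)] (G : V d → V d →L[ℝ] V d) (hGIN : GIN_stmt) (hG : IsMetric G) (γ : Γ)
    (h4 : ∀ (x u : V d), fderiv ℝ (fun y : V d => γ • y) x (fderiv ℝ (fun y : V d => γ⁻¹ • y) (γ • x) u) = u)
    (h5 : ∀ (p : P d) (u : V d), ⟪(lft γ p).2, fderiv ℝ (fun y : V d => γ • y) p.1 u⟫_ℝ = ⟪p.2, u⟫_ℝ)
    (hiso : ∀ (x u v : V d), ⟪G (γ • x) (fderiv ℝ (fun y : V d => γ • y) x u), fderiv ℝ (fun y : V d => γ • y) x v⟫_ℝ = ⟪G x u, v⟫_ℝ)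
    (p : P d) : vel G (lft γ p) = fderiv ℝ (fun y : V d => γ • y) p.1 (vel G p) := by
  obtain ⟨g1, _⟩ := hGIN d G hG
  have hη : G (γ • p.1) (fderiv ℝ (fun y : V d => γ • y) p.1 (vel G p)) = (lft γ p).2 := by
    refine ext_inner_right ℝ fun w => ?_
    have hw := h4 p.1 w
    rw [← hw, hiso, h5]
    unfold vel
    rw [(g1 p.1 p.2).2]
  have h6 : vel G (lft γ p) = IG G (γ • p.1) (lft γ p).2 := rfl
  rw [h6, ← hη, (g1 (γ • p.1) _).1]

theorem GHL_proof (hGIN : GIN_stmt) (hGXH : GXH_stmt) (hGLF : GLF_stmt) : GHL_stmt := by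
  intro d Γ _ _ G hG hsm hiso
  obtain ⟨l1, l2, l3, l4, l5, l6, l7, l8⟩ := hGLF d Γ hsm
  obtain ⟨x1, x2, x3, x4, x5, x6, x7⟩ := hGXH d G hG
  have hvel : ∀ (γ : Γ) (p : P d), vel G (lft γ p) = fderiv ℝ (fun y : V d => γ • y) p.1 (vel G p) := fun γ p =>
    GHL_vel G hGIN hG γ (fun x u => (l4 γ x u).2) (l5 γ) (hiso γ) p
  have hinn : ∀ (γ : Γ) (p : P d), ⟪IG G (lft γ p).1 (lft γ p).2, (lft γ p).2⟫_ℝ = ⟪IG G p.1 p.2, p.2⟫_ℝ := by
    intro γ p
    have h1 : IG G (lft γ p).1 (lft γ p).2 = fderiv ℝ (fun y : V d => γ • y) p.1 (vel G p) := hvel γ p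
    rw [h1, real_inner_comm, l5, real_inner_comm]
    rfl
  have hHam : ∀ (γ : Γ) (p : P d), Ham G (lft γ p) = Ham G p := by
    intro γ p
    unfold Ham
    rw [hinn]
  refine ⟨fun γ p => ⟨hHam γ p, ?_, hvel γ p⟩, ?_⟩
  · unfold nrm
    rw [hinn]
  · intro γ p
    have hdl : ∀ (δ : Γ) (q : P d), DifferentiableAt ℝ (lft δ : P d → P d) q := fun δ q =>
      ((l3 δ).differentiable (by simp)).differentiableAt
    have hdH : ∀ q : P d, DifferentiableAt ℝ (Ham G) q := fun q => (x1.differentiable (by simp)).differentiableAt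
    have hinv : lft γ⁻¹ (lft γ p) = p := by
      rw [← l2, inv_mul_cancel, l1]
    have homg : ∀ q w : P d, omg (XH G q) w = -fderiv ℝ (Ham G) q w := by
      intro q w
      rw [x6 q w]
      unfold omg
      have h1 : (XH G q).1 = vel G q := rfl
      rw [h1, real_inner_comm (vel G q) w.2]
      ring
    have hch : ∀ w : P d, fderiv ℝ (Ham G) (lft γ p) (fderiv ℝ (lft γ : P d → P d) p w) = fderiv ℝ (Ham G) p w := by
      intro w
      have h1 : fderiv ℝ ((Ham G) ∘ (lft γ : P d → P d)) p = (fderiv ℝ (Ham G) (lft γ p)).comp (fderiv ℝ (lft γ : P d → P d) p) :=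
        fderiv_comp p (hdH _) (hdl γ p)
      have h2 : (Ham G) ∘ (lft γ : P d → P d) = Ham G := by
        funext q
        exact hHam γ q
      rw [h2] at h1
      rw [h1]
      rfl
    have hsurj : ∀ w : P d, fderiv ℝ (lft γ : P d → P d) p (fderiv ℝ (lft γ⁻¹ : P d → P d) (lft γ p) w) = w := by
      intro w
      have h1 : fderiv ℝ ((lft γ : P d → P d) ∘ (lft γ⁻¹ : P d → P d)) (lft γ p) =
          (fderiv ℝ (lft γ : P d → P d) (lft γ⁻¹ (lft γ p))).comp (fderiv ℝ (lft γ⁻¹ : P d → P d) (lft γ p)) :=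
        fderiv_comp (lft γ p) (hdl γ _) (hdl γ⁻¹ _)
      have h2 : (lft γ : P d → P d) ∘ (lft γ⁻¹ : P d → P d) = id := by
        funext q
        change lft γ (lft γ⁻¹ q) = q
        rw [← l2, mul_inv_cancel, l1]
      rw [h2, hinv, fderiv_id] at h1
      have h3 := congrArg (fun A : P d →L[ℝ] P d => A w) h1
      exact h3.symm
    refine GHL_nd _ _ fun w => ?_
    have hw := hsurj w
    rw [← hw, l7, homg, homg, hch]

end

end Pool.Agent.VD
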