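import Pool.Agent.helper93.VD.SpecB4a

/-!
# Project VD (MP_07c750_an), row LLS: local sums over separated sets
-/

set_option autoImplicit false

open MeasureTheory Filter Set Topology
open scoped ENNReal

namespace Pool.Agent.VDL

open Pool.Agent.VDE (BB av)

noncomputable section

theorem LLS_bow {S : Type} [TopologicalSpace S] [MeasurableSpace S] {μ : Measure S} {d : S → S → ℝ} {f : ℝ → S → S} {ε C : ℝ}
    (hV : VL μ d f ε C) {T0 : ℝ} (hT : 0 ≤ T0) (y : S) : μ (BB d f T0 y (16 * ε)) ≤ ENNReal.ofReal (C ^ 2) * μ (BB d f T0 y (ε / 16)) := by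
  have h1 := hV.up y T0 0 hT le_rfl
  rw [add_zero] at h1
  have h2 : μ (BB d f 0 (f T0 y) (ε / 16)) ≤ ENNReal.ofReal C := by
    refine (measure_mono ?_).trans (hV.one (f T0 y))
    intro w hw s hs
    have := hV.ep
    exact (hw s hs).trans (by linarith)
  have hC0 : 0 ≤ C := zero_le_one.trans hV.hC
  calc μ (BB d f T0 y (16 * ε)) ≤ ENNReal.ofReal C * (μ (BB d f T0 y (ε / 16)) * μ (BB d f 0 (f T0 y) (ε / 16))) := h1
    _ ≤ ENNReal.ofReal C * (μ (BB d f T0 y (ε / 16)) * ENNReal.ofReal C) := by gcongr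
    _ = ENNReal.ofReal (C ^ 2) * μ (BB d f T0 y (ε / 16)) := by
        rw [sq, ENNReal.ofReal_mul hC0]
        ring

theorem LLS_av {S : Type} [TopologicalSpace S] [MeasurableSpace S] {μ : Measure S} {d : S → S → ℝ} {f : ℝ → S → S} {ε C : ℝ}
    (hV : VL μ d f ε C) {h : S → ℝ} {M e T0 v0 : ℝ} (hW : WK μ d f h M e ε T0 v0) (y w : S) (hw : w ∈ BB d f T0 y (ε / 16)) :
    |av f h T0 w - av f h T0 y| ≤ e / 16 := by
  have hT := hW.hT
  have hcont : ∀ z : S, Continuous fun t : ℝ => h (f t z) := fun z =>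
    hW.hc.comp (hV.fcn.comp (continuous_id.prodMk continuous_const))
  unfold av
  rw [← mul_sub, ← intervalIntegral.integral_sub ((hcont w).intervalIntegrable _ _) ((hcont y).intervalIntegrable _ _), abs_mul,
    abs_of_pos (inv_pos.2 hT)]
  have h1 : ‖∫ t in (0 : ℝ)..T0, (h (f t w) - h (f t y))‖ ≤ e / 16 * |T0 - 0| := by
    refine intervalIntegral.norm_integral_le_of_norm_le_const fun t ht => ?_
    rw [uIoc_of_le hT.le] at ht
    rw [Real.norm_eq_abs]
    refine hW.hu _ _ ?_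
    rw [hV.ds]
    have := hV.ep
    exact (hw t ⟨ht.1.le, ht.2⟩).trans (by linarith)
  rw [Real.norm_eq_abs, sub_zero, abs_of_pos hT] at h1
  calc T0⁻¹ * |∫ t in (0 : ℝ)..T0, (h (f t w) - h (f t y))| ≤ T0⁻¹ * (e / 16 * T0) :=
        mul_le_mul_of_nonneg_left h1 (inv_pos.2 hT).le
    _ = e / 16 := by field_simp

theorem LLS_dj {S : Type} [TopologicalSpace S] [MeasurableSpace S] {μ : Measure S} {d : S → S → ℝ} {f : ℝ → S → S} {ε C : ℝ}
    (hV : VL μ d f ε C) {T0 : ℝ} {E : Set S} (hE : Sep d f T0 ε E) (y y' : S) (hy : y ∈ E) (hy' : y' ∈ E) (hne : y ≠ y') :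
    Disjoint (BB d f T0 y (ε / 16)) (BB d f T0 y' (ε / 16)) := by
  rw [Set.disjoint_left]
  intro w hw hw'
  obtain ⟨s, hs, h1⟩ := hE y hy y' hy' hne
  have h2 := hw s hs
  have h3 := hw' s hs
  have h4 := hV.dt (f s y) (f s w) (f s y')
  rw [hV.ds (f s w) (f s y')] at h4
  have := hV.ep
  linarith

theorem LLS_proof (hLNT : LNT_stmt) : LLS_stmt := by
  classical
  intro S _ _ _ _ μ d f ε C hV h M e T0 v0 z hW hz E hEc hE x
  have hε := hV.ep
  have hC0 : 0 ≤ C := zero_le_one.trans hV.hC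
  have hT := hW.hT
  have hv0 := hW.hv
  have hcl : ∀ (y : S) (r : ℝ), MeasurableSet (BB d f T0 y r) := fun y r => ((hLNT S S μ d f ε C hV).2 y T0 r).measurableSet
  let A1 : E → Set S := fun y => if d x y ≤ 4 * ε then BB d f T0 y (ε / 16) else ∅
  let A2 : E → Set S := fun y => if d x y ≤ 4 * ε ∧ e / 4 ≤ |av f h T0 y - M| then BB d f T0 y (ε / 16) else ∅
  have hA1m : ∀ y, MeasurableSet (A1 y) := by
    intro y
    change MeasurableSet (if d x y ≤ 4 * ε then BB d f T0 y (ε / 16) else ∅)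
    split_ifs
    · exact hcl _ _
    · exact MeasurableSet.empty
  have hA2m : ∀ y, MeasurableSet (A2 y) := by
    intro y
    change MeasurableSet (if d x y ≤ 4 * ε ∧ e / 4 ≤ |av f h T0 y - M| then BB d f T0 y (ε / 16) else ∅)
    split_ifs
    · exact hcl _ _
    · exact MeasurableSet.empty
  have hA1s : ∀ y, A1 y ⊆ BB d f T0 y (ε / 16) := by
    intro y
    change (if d x y ≤ 4 * ε then BB d f T0 y (ε / 16) else ∅) ⊆ _
    split_ifs
    · exact subset_rfl
    · exact empty_subset _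
  have hA2s : ∀ y, A2 y ⊆ BB d f T0 y (ε / 16) := by
    intro y
    change (if d x y ≤ 4 * ε ∧ e / 4 ≤ |av f h T0 y - M| then BB d f T0 y (ε / 16) else ∅) ⊆ _
    split_ifs
    · exact subset_rfl
    · exact empty_subset _
  have hd1 : Pairwise (Function.onFun Disjoint A1) := by
    intro y y' hne
    exact (LLS_dj hV hE y y' y.2 y'.2 (fun hc => hne (Subtype.ext hc))).mono (hA1s y) (hA1s y')
  have hd2 : Pairwise (Function.onFun Disjoint A2) := by
    intro y y' hne
    exact (LLS_dj hV hE y y' y.2 y'.2 (fun hc => hne (Subtype.ext hc))).mono (hA2s y) (hA2s y')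
  have hin : ∀ (y w : S), d x y ≤ 4 * ε → w ∈ BB d f T0 y (ε / 16) → d x w ≤ 16 * ε := by
    intro y w hy hw
    have h1 := hw 0 ⟨le_rfl, hT.le⟩
    rw [hV.f0, hV.f0] at h1
    have h2 := hV.dt x y w
    linarith
  have hs1 : ∑' y, μ (A1 y) ≤ ENNReal.ofReal C := by
    refine (tsum_meas_le_meas_iUnion_of_disjoint μ hA1m hd1).trans ((measure_mono ?_).trans (hV.one x))
    intro w hw
    obtain ⟨y, hy⟩ := mem_iUnion.1 hw
    change w ∈ (if d x y ≤ 4 * ε then BB d f T0 y (ε / 16) else ∅) at hy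
    split_ifs at hy with hc
    · intro s hs
      have hs0 : s = 0 := le_antisymm hs.2 hs.1
      rw [hs0, hV.f0, hV.f0]
      exact hin y w hc hy
    · exact absurd hy (notMem_empty w)
  have hs2 : ∑' y, μ (A2 y) ≤ ENNReal.ofReal v0 := by
    refine (tsum_meas_le_meas_iUnion_of_disjoint μ hA2m hd2).trans ((measure_mono ?_).trans (hW.wl x))
    intro w hw
    obtain ⟨y, hy⟩ := mem_iUnion.1 hw
    change w ∈ (if d x y ≤ 4 * ε ∧ e / 4 ≤ |av f h T0 y - M| then BB d f T0 y (ε / 16) else ∅) at hy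
    split_ifs at hy with hc
    · refine ⟨hin y w hc.1 hy, ?_⟩
      have h1 := LLS_av hV hW y w hy
      have h2 := hc.2
      have h3 : |av f h T0 y - M| ≤ |av f h T0 w - M| + |av f h T0 w - av f h T0 y| := by
        have h4 : av f h T0 y - M = (av f h T0 w - M) - (av f h T0 w - av f h T0 y) := by ring
        rw [h4]
        exact abs_sub _ _
      have := hW.ep
      linarith
    · exact absurd hy (notMem_empty w)
  have hterm : ∀ y : E, (if d x y ≤ 4 * ε then μ (BB d f T0 y (16 * ε)) * (if e / 4 ≤ |av f h T0 y - M| then ENNReal.ofReal (1 + z) else 1) else 0) ≤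
      ENNReal.ofReal (C ^ 2) * (μ (A1 y) + ENNReal.ofReal z * μ (A2 y)) := by
    intro y
    have e1 : A1 y = if d x y ≤ 4 * ε then BB d f T0 y (ε / 16) else ∅ := rfl
    have e2 : A2 y = if d x y ≤ 4 * ε ∧ e / 4 ≤ |av f h T0 y - M| then BB d f T0 y (ε / 16) else ∅ := rfl
    by_cases hc : d x y ≤ 4 * ε
    · have hb := LLS_bow hV hT.le (y : S)
      by_cases hd : e / 4 ≤ |av f h T0 y - M|
      · rw [if_pos hc, if_pos hd, e1, e2, if_pos hc, if_pos ⟨hc, hd⟩, ENNReal.ofReal_add zero_le_one hz, ENNReal.ofReal_one]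
        calc μ (BB d f T0 y (16 * ε)) * (1 + ENNReal.ofReal z) ≤ (ENNReal.ofReal (C ^ 2) * μ (BB d f T0 y (ε / 16))) * (1 + ENNReal.ofReal z) := by gcongr
          _ = ENNReal.ofReal (C ^ 2) * (μ (BB d f T0 y (ε / 16)) + ENNReal.ofReal z * μ (BB d f T0 y (ε / 16))) := by ring
      · rw [if_pos hc, if_neg hd, e1, if_pos hc, mul_one]
        refine hb.trans ?_
        gcongr
        exact le_self_add
    · rw [if_neg hc]
      exact bot_le
  refine (ENNReal.tsum_le_tsum hterm).trans ?_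
  rw [ENNReal.tsum_mul_left, ENNReal.tsum_add, ENNReal.tsum_mul_left]
  calc ENNReal.ofReal (C ^ 2) * (∑' y, μ (A1 y) + ENNReal.ofReal z * ∑' y, μ (A2 y))
      ≤ ENNReal.ofReal (C ^ 2) * (ENNReal.ofReal C + ENNReal.ofReal z * ENNReal.ofReal v0) := by gcongr
    _ = ENNReal.ofReal (C ^ 2 * (C + z * v0)) := by
        rw [← ENNReal.ofReal_mul hz, ← ENNReal.ofReal_add hC0 (mul_nonneg hz hv0.le), ← ENNReal.ofReal_mul (by positivity)]

end

end Pool.Agent.VDL
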